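import Pool.Agent.PRI65.Max

set_option autoImplicit false

/-!
# A maximal left ideal of `U(W)` over a translate of a maximal left ideal of `U(S)`
-/

namespace R12V

open Pool.WittPrimes PRI65

attribute [local instance 100] LieRing.ofAssociativeRing

variable {k L : Type*} [Field k] [CharZero k] [LieRing L] [LieAlgebra k L]
variable (D : WittData k L) (S : LieSubalgebra k L)
    (hS : S.toSubmodule = Submodule.span k (D.b '' {n | -1 ≤ n}))

theorem over_step (M : Ideal (UniversalEnvelopingAlgebra k S)) (hM : M.IsMaximal)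
    (Q : TwoSidedIdeal (UniversalEnvelopingAlgebra k S)) (hQ : ∀ a, a ∈ Q ↔ ∀ x, a * x ∈ M)
    (P : TwoSidedIdeal (UniversalEnvelopingAlgebra k L)) (hP : IsPrimeI P)
    (hr : P.comap (iotaU S) = Q) (c : k)
    (h : (1 : UniversalEnvelopingAlgebra k L) ∉
      Ideal.span ((iotaU S '' {w | th D S hS c w ∈ M}) ∪ {p | p ∈ P})) :
    ∃ N : Ideal (UniversalEnvelopingAlgebra k L), N.IsMaximal ∧
      (∀ a, a ∈ P ↔ ∀ x, a * x ∈ N) ∧ (∀ w, th D S hS c w ∈ M → iotaU S w ∈ N) ∧
      ∀ w, iotaU S w ∈ N → th D S hS c w ∈ M := by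
  obtain ⟨N, hN, hle⟩ := Ideal.exists_le_maximal _ (fun he => h ((Ideal.eq_top_iff_one _).mp he))
  have hle1 : ∀ w, th D S hS c w ∈ M → iotaU S w ∈ N := fun w hw =>
    hle (Ideal.subset_span (Or.inl ⟨w, hw, rfl⟩))
  have hle2 : ∀ p ∈ P, p ∈ N := fun p hp => hle (Ideal.subset_span (Or.inr hp))
  -- the maximal left ideal `th c ⁻¹ M`
  have hsurj : Function.Surjective (th D S hS c) := fun w =>
    ⟨th D S hS (-c) w, by simpa only [neg_neg] using th_neg D S hS (-c) w⟩
  have hmax : (Ideal.comap (th D S hS c) M).IsMaximal :=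
    Ideal.comap_isMaximal_of_surjective (th D S hS c) hsurj
  have hcN : Ideal.comap (th D S hS c) M = Ideal.comap (iotaU S) N := by
    refine hmax.eq_of_le ?_ ?_
    · intro he
      have h1 := (Ideal.eq_top_iff_one _).mp he
      rw [Ideal.mem_comap, map_one] at h1
      exact hN.ne_top ((Ideal.eq_top_iff_one N).mpr h1)
    · intro w hw
      exact hle1 w hw
  have hPN : P ≤ annI N := fun p hp => (mem_annI N p).mpr fun x =>
    hle2 _ (P.mul_mem_right _ _ hp)
  have hNP : annI N ≤ P := by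
    refine (main D S hS).2.2 _ _ (annI_prime N hN) hP ?_
    rw [hr]
    intro w hw
    rw [hQ]
    intro x
    have h1 : w * x ∈ (annI N).comap (iotaU S) := TwoSidedIdeal.mul_mem_right _ _ _ hw
    have h2 := th_mem D S hS _ (-c) _ h1
    rw [TwoSidedIdeal.mem_comap, mem_annI] at h2
    have h3 := h2 1
    rw [mul_one] at h3
    have h4 : th D S hS (-c) (w * x) ∈ Ideal.comap (th D S hS c) M := by
      rw [hcN]; exact h3
    have h5 : th D S hS c (th D S hS (-c) (w * x)) = w * x := by
      simpa only [neg_neg] using th_neg D S hS (-c) (w * x)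
    rw [Ideal.mem_comap, h5] at h4
    exact h4
  refine ⟨N, hN, ?_, hle1, fun w hw => ?_⟩
  · intro a
    rw [← mem_annI]
    exact ⟨fun ha => hPN ha, fun ha => hNP ha⟩
  · have h6 : w ∈ Ideal.comap (iotaU S) N := hw
    rw [← hcN] at h6
    exact h6

end R12V
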