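import Pool.Agent.R12.Bq

set_option autoImplicit false

namespace R12V

theorem rad {k : Type*} [Field k] {d : ℕ} (f : Polynomial k) (hf : f ≠ 0) (hd : f.natDegree < d)
    (r : ℕ) : ∃ K, R12.Dq k d ^ K ∈ Ideal.span (Set.range fun i : Fin d =>
      (Polynomial.aeval (MvPolynomial.X i : MvPolynomial (Fin d) k) f) ^ r) := by
  have key : R12.Dq k d ∈ (Ideal.span (Set.range fun i : Fin d =>
      (Polynomial.aeval (MvPolynomial.X i : MvPolynomial (Fin d) k) f) ^ r)).radical := by
    rw [Ideal.radical_eq_sInf, Ideal.mem_sInf]
    rintro p ⟨hle, hp⟩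
    have h1 : ∀ i : Fin d, Polynomial.aeval (MvPolynomial.X i : MvPolynomial (Fin d) k) f ∈ p := by
      intro i
      exact hp.mem_of_pow_mem r (hle (Ideal.subset_span ⟨i, rfl⟩))
    let A := MvPolynomial (Fin d) k ⧸ p
    let x : Fin d → A := fun i => Ideal.Quotient.mk p (MvPolynomial.X i)
    have hroot : ∀ i, Polynomial.aeval (x i) f = 0 := by
      intro i
      have h2 : Polynomial.aeval (x i) f = Ideal.Quotient.mkₐ k p
          (Polynomial.aeval (MvPolynomial.X i : MvPolynomial (Fin d) k) f) := by
        rw [← Polynomial.aeval_algHom_apply]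
        rfl
      rw [h2]
      exact Ideal.Quotient.eq_zero_iff_mem.2 (h1 i)
    have hinj : ¬ Function.Injective x := by
      intro hx
      classical
      have hf' : f.map (algebraMap k A) ≠ 0 :=
        (Polynomial.map_ne_zero_iff (algebraMap k A).injective).2 hf
      have h3 : (Finset.univ.image x) ⊆ (f.map (algebraMap k A)).roots.toFinset := by
        intro a ha
        obtain ⟨i, -, rfl⟩ := Finset.mem_image.1 ha
        rw [Multiset.mem_toFinset, Polynomial.mem_roots hf', Polynomial.IsRoot.def,
          Polynomial.eval_map_algebraMap]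
        exact hroot i
      have h4 := Finset.card_le_card h3
      rw [Finset.card_image_of_injective _ hx, Finset.card_univ, Fintype.card_fin] at h4
      have h5 : (f.map (algebraMap k A)).roots.toFinset.card ≤ f.natDegree :=
        (Multiset.toFinset_card_le _).trans ((Polynomial.card_roots' _).trans
          (Polynomial.natDegree_map_le))
      omega
    simp only [Function.Injective, not_forall] at hinj
    obtain ⟨i, j, hij, hne⟩ := hinj
    have h6 : (MvPolynomial.X i - MvPolynomial.X j : MvPolynomial (Fin d) k) ∈ p :=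
      Ideal.Quotient.eq.1 hij
    have h7 : (MvPolynomial.X i - MvPolynomial.X j : MvPolynomial (Fin d) k) ∣ R12.Dq k d := by
      classical
      unfold R12.Dq
      exact Finset.dvd_prod_of_mem (fun x : Fin d × Fin d =>
        (MvPolynomial.X x.1 - MvPolynomial.X x.2 : MvPolynomial (Fin d) k)) (a := (i, j))
        (Finset.mem_filter.2 ⟨Finset.mem_univ _, hne⟩)
    exact p.mem_of_dvd h7 h6
  exact Ideal.mem_radical_iff.1 key

end R12V
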