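import Pool.Agent.PRI65.Tr

/-!
Words with a letter divisible by a high power of `f` lie in a local left ideal.
-/

namespace R12V

open Pool.WittPrimes PRI65 Polynomial

attribute [local instance 100] LieRing.ofAssociativeRing

variable {k L : Type*} [Field k] [LieRing L] [LieAlgebra k L]
variable (D : WittData k L) (S : LieSubalgebra k L)
    (hS : S.toSubmodule = Submodule.span k (D.b '' {n | -1 ≤ n}))

theorem phi_brk (a b : k[X]) :
    phi D S hS a * phi D S hS b - phi D S hS b * phi D S hS a =
      phi D S hS (a * derivative b - derivative a * b) := by
  induction a using Polynomial.induction_on' with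
  | add p q hp hq =>
    have e : (p + q) * derivative b - derivative (p + q) * b =
        (p * derivative b - derivative p * b) + (q * derivative b - derivative q * b) := by
      rw [derivative_add]
      ring
    rw [e, map_add, map_add, ← hp, ← hq]
    noncomm_ring
  | monomial i α =>
    induction b using Polynomial.induction_on' with
    | add p q hp hq =>
      have e : monomial i α * derivative (p + q) - derivative (monomial i α) * (p + q) =
          (monomial i α * derivative p - derivative (monomial i α) * p) +
            (monomial i α * derivative q - derivative (monomial i α) * q) := by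
        rw [derivative_add]
        ring
      rw [e, map_add, map_add, ← hp, ← hq]
      noncomm_ring
    | monomial j β =>
      have e1 : monomial i α * derivative (monomial j β) =
          monomial (i + j - 1) (α * β * (j : k)) := by
        rw [derivative_monomial, monomial_mul_monomial]
        rcases Nat.eq_zero_or_pos j with h | h
        · rw [h, Nat.cast_zero, mul_zero, mul_zero, mul_zero, monomial_zero_right,
            monomial_zero_right]
        · rw [show i + (j - 1) = i + j - 1 by omega, mul_assoc]
      have e2 : derivative (monomial i α) * monomial j β =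
          monomial (i + j - 1) (α * β * (i : k)) := by
        rw [derivative_monomial, monomial_mul_monomial]
        rcases Nat.eq_zero_or_pos i with h | h
        · rw [h, Nat.cast_zero, mul_zero, mul_zero, zero_mul, monomial_zero_right,
            monomial_zero_right]
        · rw [show i - 1 + j = i + j - 1 by omega]
          congr 1
          ring
      rw [e1, e2, ← map_sub, phi_monomial, phi_monomial, phi_monomial, smul_mul_smul_comm,
        smul_mul_smul_comm, mul_comm β α, ← smul_sub, eS_comm D S hS _ _ (by omega) (by omega),
        smul_smul]
      rcases Nat.eq_zero_or_pos (i + j) with h | h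
      · obtain ⟨rfl, rfl⟩ : i = 0 ∧ j = 0 := by omega
        simp
      · rw [show ((i : ℤ) - 1 + ((j : ℤ) - 1)) = (((i + j - 1 : ℕ) : ℤ) - 1) by omega]
        congr 1
        push_cast
        ring

theorem move (M : Ideal (UniversalEnvelopingAlgebra k S)) (f : k[X])
    (hM : ∀ h : k[X], phi D S hS (f * h) ∈ M) (l : List k[X]) (h : k[X]) :
    phi D S hS (f ^ (l.length + 1) * h) * (l.map (phi D S hS)).prod ∈ M := by
  induction l generalizing h with
  | nil => simpa using hM h
  | cons p l ih =>
    rw [List.map_cons, List.prod_cons, List.length_cons]
    have e1 : f ^ (l.length + 1 + 1) * h = f ^ (l.length + 1) * (f * h) := by ring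
    have e2 : f ^ (l.length + 1 + 1) * h * derivative p -
        derivative (f ^ (l.length + 1 + 1) * h) * p =
        f ^ (l.length + 1) * (f * h * derivative p -
          (((l.length + 1 + 1 : ℕ) : k[X]) * derivative f * h + f * derivative h) * p) := by
      rw [derivative_mul, derivative_pow, Nat.add_sub_cancel]
      simp only [map_natCast]
      ring
    have e3 : phi D S hS (f ^ (l.length + 1 + 1) * h) *
        (phi D S hS p * (l.map (phi D S hS)).prod) =
        phi D S hS p * (phi D S hS (f ^ (l.length + 1) * (f * h)) *
          (l.map (phi D S hS)).prod) +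
        phi D S hS (f ^ (l.length + 1) * (f * h * derivative p -
          (((l.length + 1 + 1 : ℕ) : k[X]) * derivative f * h + f * derivative h) * p)) *
          (l.map (phi D S hS)).prod := by
      rw [← e2, ← phi_brk, ← e1]
      noncomm_ring
    rw [e3]
    exact M.add_mem (M.mul_mem_left _ (ih _)) (ih _)

theorem word (M : Ideal (UniversalEnvelopingAlgebra k S)) (f : k[X])
    (hM : ∀ h : k[X], phi D S hS (f * h) ∈ M) {d : ℕ} (i : Fin d)
    (G : MvPolynomial (Fin d) k) :
    bq D S hS d ((Polynomial.aeval (MvPolynomial.X i) f) ^ d * G) ∈ M := by
  induction G using MvPolynomial.induction_on' with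
  | add p q hp hq =>
    rw [mul_add, map_add]
    exact M.add_mem hp hq
  | monomial u a =>
    let p : Fin d → k[X] := fun j => if j = i then f ^ d * X ^ (u j) else X ^ (u j)
    have e : (Polynomial.aeval (MvPolynomial.X i) f) ^ d * MvPolynomial.monomial u a =
        a • ∏ j : Fin d, Polynomial.aeval (MvPolynomial.X j) (p j) := by
      have e1 : ∀ j : Fin d, Polynomial.aeval (MvPolynomial.X j : MvPolynomial (Fin d) k) (p j) =
          (if j = i then (Polynomial.aeval (MvPolynomial.X i : MvPolynomial (Fin d) k) f) ^ d
            else 1) * (MvPolynomial.X j) ^ (u j) := by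
        intro j
        by_cases hj : j = i
        · simp only [p, hj, if_true, map_mul, map_pow, Polynomial.aeval_X]
        · simp only [p, hj, if_false, map_pow, Polynomial.aeval_X, one_mul]
      rw [Finset.prod_congr rfl fun j _ => e1 j, Finset.prod_mul_distrib, Finset.prod_ite_eq',
        if_pos (Finset.mem_univ i), MvPolynomial.monomial_eq, Finsupp.prod_fintype _ _
        (fun _ => pow_zero _), MvPolynomial.smul_eq_C_mul]
      ring
    rw [e, map_smul, bq_prod]
    refine Submodule.smul_of_tower_mem M a ?_
    have hl : (List.ofFn fun j => phi D S hS (p j)) = (List.ofFn p).map (phi D S hS) := by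
      rw [List.map_ofFn]
      rfl
    rw [hl]
    have hi : (i : ℕ) < (List.ofFn p).length := by
      rw [List.length_ofFn]
      exact i.2
    rw [← List.take_append_drop (i : ℕ) (List.ofFn p), List.drop_eq_getElem_cons hi,
      List.map_append, List.prod_append, List.map_cons, List.prod_cons, List.getElem_ofFn]
    refine M.mul_mem_left _ ?_
    have h1 := move D S hS M f hM ((List.ofFn p).drop ((i : ℕ) + 1))
      (f ^ (i : ℕ) * X ^ (u i))
    rw [List.length_drop, List.length_ofFn] at h1
    have h2 : f ^ (d - ((i : ℕ) + 1) + 1) * (f ^ (i : ℕ) * X ^ (u i)) = p i := by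
      have h3 : d - ((i : ℕ) + 1) + 1 + (i : ℕ) = d := by
        have := i.2
        omega
      simp only [p, if_true]
      rw [← mul_assoc, ← pow_add, h3]
    rw [h2] at h1
    exact h1

end R12V
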